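import Pool.Agent.Lib.MP_305fdd_al.NatBij

/-!
# MP_305fdd_al: finite extensions of the free group of rank two. Definitions and basic lemmas.

`F` is the free group on `ga`, `gb`; `vec w ∈ ℤ²` is the class of `w` in the abelianisation,
`AM α ∈ GL₂(ℤ)` the matrix of an automorphism `α`. For a normal subgroup `N` of `G` with an
isomorphism `e : N ≃* F`, `cj e g` is the automorphism of `F` given by conjugation with `g`, and
`Th e g` is its matrix.
-/

set_option autoImplicit false

namespace Pool.Agent.F2X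

open Matrix

noncomputable section

/-- the free group of rank two -/
abbrev F : Type := FreeGroup (Fin 2)

/-- first generator -/
abbrev ga : F := FreeGroup.of 0

/-- second generator -/
abbrev gb : F := FreeGroup.of 1

/-- the abelianisation -/
def abh : F →* Multiplicative (Fin 2 → ℤ) :=
  FreeGroup.lift fun i => Multiplicative.ofAdd (Pi.single i 1)

/-- the class in the abelianisation, as a vector -/
def vec (w : F) : Fin 2 → ℤ := Multiplicative.toAdd (abh w)

@[simp] theorem vec_one : vec 1 = 0 := by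
  unfold vec; rw [map_one]; rfl

@[simp] theorem vec_mul (v w : F) : vec (v * w) = vec v + vec w := by
  unfold vec; rw [map_mul]; rfl

@[simp] theorem vec_inv (w : F) : vec w⁻¹ = -vec w := by
  unfold vec; rw [map_inv]; rfl

@[simp] theorem vec_of (i : Fin 2) : vec (FreeGroup.of i) = Pi.single i 1 := by
  unfold vec abh; rw [FreeGroup.lift_apply_of]; rfl

theorem vec_surj (x : Fin 2 → ℤ) : ∃ w, vec w = x := by
  refine ⟨ga ^ (x 0) * gb ^ (x 1), ?_⟩
  have h : ∀ (w : F) (n : ℤ), vec (w ^ n) = n • vec w := by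
    intro w n
    unfold vec; rw [map_zpow]; rfl
  rw [vec_mul, h, h, vec_of, vec_of]
  ext i
  fin_cases i <;> simp

/-- the matrix of an endomorphism -/
def amat (f : F →* F) : Matrix (Fin 2) (Fin 2) ℤ := Matrix.of fun i j => vec (f (FreeGroup.of j)) i

theorem vec_hom (f : F →* F) (w : F) : vec (f w) = (amat f).mulVec (vec w) := by
  let h1 : F →* Multiplicative (Fin 2 → ℤ) := abh.comp f
  let h2 : F →* Multiplicative (Fin 2 → ℤ) :=
    (AddMonoidHom.toMultiplicative (Matrix.mulVecLin (amat f)).toAddMonoidHom).comp abh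
  have h : h1 = h2 := by
    ext j i
    show vec (f (FreeGroup.of j)) i = (amat f).mulVec (vec (FreeGroup.of j)) i
    rw [vec_of, Matrix.mulVec_single_one]
    rfl
  exact congrArg Multiplicative.toAdd (DFunLike.congr_fun h w)

theorem amat_comp (f g : F →* F) : amat (f.comp g) = amat f * amat g := by
  ext i j
  show vec (f (g (FreeGroup.of j))) i = _
  rw [vec_hom, Matrix.mul_apply, Matrix.mulVec, dotProduct]
  rfl

theorem amat_id : amat (MonoidHom.id F) = 1 := by
  ext i j
  show vec (FreeGroup.of j) i = _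
  rw [vec_of, Matrix.one_apply, Pi.single_apply]

/-- the matrix of an automorphism -/
def AM : MulAut F →* GL (Fin 2) ℤ :=
  MonoidHom.toHomUnits
    { toFun := fun α => amat α.toMonoidHom
      map_one' := amat_id
      map_mul' := fun α β => amat_comp α.toMonoidHom β.toMonoidHom }

theorem AM_val (α : MulAut F) : (AM α).val = amat α.toMonoidHom := rfl

theorem AM_vec (α : MulAut F) (w : F) : vec (α w) = (AM α).val.mulVec (vec w) :=
  vec_hom α.toMonoidHom w

/-- matrices are determined by their action on the classes -/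
theorem AM_eq_iff (α β : MulAut F) : AM α = AM β ↔ ∀ w, vec (α w) = vec (β w) := by
  constructor
  · intro h w
    rw [AM_vec, AM_vec, h]
  · intro h
    apply Units.ext
    ext i j
    exact congrFun (h (FreeGroup.of j)) i

theorem AM_conj (g : F) : AM (MulAut.conj g) = 1 := by
  rw [← map_one AM, AM_eq_iff]
  intro w
  rw [MulAut.conj_apply, vec_mul, vec_mul, vec_inv, MulAut.one_apply]
  abel

/-- reduction modulo `n` -/
def red (n : ℕ) : GL (Fin 2) ℤ →* GL (Fin 2) (ZMod n) :=
  Matrix.GeneralLinearGroup.map (Int.castRingHom (ZMod n))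

/-! ### Conjugation -/

section cj

variable {G : Type} [Group G] {N : Subgroup G} [N.Normal] (e : N ≃* F)

/-- the automorphism of `F` given by conjugation with `g` -/
def cj : G →* MulAut F := (MulAut.congr e).toMonoidHom.comp MulAut.conjNormal

theorem cj_apply (g : G) (w : F) : cj e g w = e (MulAut.conjNormal g (e.symm w)) := rfl

theorem cj_e (g : G) (x : N) : cj e g (e x) = e (MulAut.conjNormal g x) := by
  rw [cj_apply, MulEquiv.symm_apply_apply]

theorem cj_mem (x : N) : cj e (x : G) = MulAut.conj (e x) := by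
  ext w
  obtain ⟨y, rfl⟩ := e.surjective w
  rw [cj_e, MulAut.conj_apply, ← map_mul, ← map_inv, ← map_mul]
  congr 1

/-- its matrix -/
def Th : G →* GL (Fin 2) ℤ := AM.comp (cj e)

theorem Th_apply (g : G) : Th e g = AM (cj e g) := rfl

theorem Th_mem (x : N) : Th e (x : G) = 1 := by
  rw [Th_apply, cj_mem, AM_conj]

theorem Th_mem' (g : G) (hg : g ∈ N) : Th e g = 1 := Th_mem e ⟨g, hg⟩

end cj

/-! ### Some automorphisms -/

/-- the endomorphism `a ↦ u`, `b ↦ v` -/
def lf (u v : F) : F →* F := FreeGroup.lift ![u, v]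

@[simp] theorem lf_ga (u v : F) : lf u v ga = u := by
  unfold lf; rw [FreeGroup.lift_apply_of]; rfl

@[simp] theorem lf_gb (u v : F) : lf u v gb = v := by
  unfold lf; rw [FreeGroup.lift_apply_of]; rfl

theorem hom_ext {G : Type} [Group G] {f g : F →* G} (ha : f ga = g ga) (hb : f gb = g gb) :
    f = g := by
  ext i
  fin_cases i
  · exact ha
  · exact hb

theorem aut_ext {α β : MulAut F} (ha : α ga = β ga) (hb : α gb = β gb) : α = β := by
  have h : α.toMonoidHom = β.toMonoidHom := hom_ext ha hb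
  ext w
  exact DFunLike.congr_fun h w

/-- an automorphism from a pair of inverse endomorphisms -/
def mkA (u v u' v' : F) (h1 : lf u v u' = ga) (h2 : lf u v v' = gb) (h3 : lf u' v' u = ga)
    (h4 : lf u' v' v = gb) : MulAut F :=
  MonoidHom.toMulEquiv (lf u v) (lf u' v') (hom_ext (by simpa using h3) (by simpa using h4))
    (hom_ext (by simpa using h1) (by simpa using h2))

theorem mkA_apply (u v u' v' : F) (h1 : lf u v u' = ga) (h2 : lf u v v' = gb)
    (h3 : lf u' v' u = ga) (h4 : lf u' v' v = gb) (w : F) :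
    mkA u v u' v' h1 h2 h3 h4 w = lf u v w := rfl

/-- `a ↦ b`, `b ↦ a⁻¹`; matrix `[[0, -1], [1, 0]]` -/
def aS : MulAut F := mkA gb ga⁻¹ gb⁻¹ ga (by simp) (by simp) (by simp) (by simp)

/-- `a ↦ a`, `b ↦ a b`; matrix `[[1, 1], [0, 1]]` -/
def aT : MulAut F := mkA ga (ga * gb) ga (ga⁻¹ * gb) (by simp) (by simp) (by simp) (by simp)

/-- `a ↦ b`, `b ↦ a`; matrix `[[0, 1], [1, 0]]` -/
def aX : MulAut F := mkA gb ga gb ga (by simp) (by simp) (by simp) (by simp)

/-- `a ↦ a⁻¹`, `b ↦ b⁻¹`; matrix `-1` -/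
def aI : MulAut F := mkA ga⁻¹ gb⁻¹ ga⁻¹ gb⁻¹ (by simp) (by simp) (by simp) (by simp)

@[simp] theorem aS_ga : aS ga = gb := by
  unfold aS; rw [mkA_apply, lf_ga]
@[simp] theorem aS_gb : aS gb = ga⁻¹ := by
  unfold aS; rw [mkA_apply, lf_gb]
@[simp] theorem aT_ga : aT ga = ga := by
  unfold aT; rw [mkA_apply, lf_ga]
@[simp] theorem aT_gb : aT gb = ga * gb := by
  unfold aT; rw [mkA_apply, lf_gb]
@[simp] theorem aX_ga : aX ga = gb := by
  unfold aX; rw [mkA_apply, lf_ga]
@[simp] theorem aX_gb : aX gb = ga := by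
  unfold aX; rw [mkA_apply, lf_gb]
@[simp] theorem aI_ga : aI ga = ga⁻¹ := by
  unfold aI; rw [mkA_apply, lf_ga]
@[simp] theorem aI_gb : aI gb = gb⁻¹ := by
  unfold aI; rw [mkA_apply, lf_gb]

theorem amat_eq (f : F →* F) : amat f = !![vec (f ga) 0, vec (f gb) 0; vec (f ga) 1, vec (f gb) 1] := by
  ext i j
  fin_cases i <;> fin_cases j <;> rfl

theorem AM_aS : (AM aS).val = !![0, -1; 1, 0] := by
  rw [AM_val, amat_eq]
  show !![vec (aS ga) 0, vec (aS gb) 0; vec (aS ga) 1, vec (aS gb) 1] = _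
  simp

theorem AM_aT : (AM aT).val = !![1, 1; 0, 1] := by
  rw [AM_val, amat_eq]
  show !![vec (aT ga) 0, vec (aT gb) 0; vec (aT ga) 1, vec (aT gb) 1] = _
  simp

theorem AM_aX : (AM aX).val = !![0, 1; 1, 0] := by
  rw [AM_val, amat_eq]
  show !![vec (aX ga) 0, vec (aX gb) 0; vec (aX ga) 1, vec (aX gb) 1] = _
  simp

theorem AM_aI : (AM aI).val = -1 := by
  rw [AM_val, amat_eq]
  show !![vec (aI ga) 0, vec (aI gb) 0; vec (aI ga) 1, vec (aI gb) 1] = _
  simp only [aI_ga, aI_gb, vec_inv, vec_of]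
  ext i j
  fin_cases i <;> fin_cases j <;> simp

theorem aS_mul_aS : aS * aS = aI := by
  apply aut_ext <;> simp

/-! ### The length function -/

/-- twice the Gromov product: `|x| + |y| - |x⁻¹ y|` -/
def gp (x y : F) : ℤ := (x.norm : ℤ) + y.norm - (x⁻¹ * y).norm

/-- the four letters `u, u⁻¹, v, v⁻¹` -/
def Lt (u v : F) : Set F := {u, u⁻¹, v, v⁻¹}

/-- `(u, v)` is reduced in the sense of Nielsen -/
structure NRed (u v : F) : Prop where
  u1 : u ≠ 1
  v1 : v ≠ 1
  two : ∀ x ∈ Lt u v, ∀ y ∈ Lt u v, x * y ≠ 1 → x.norm ≤ (x * y).norm ∧ y.norm ≤ (x * y).norm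
  three : ∀ x ∈ Lt u v, ∀ y ∈ Lt u v, ∀ z ∈ Lt u v, x * y ≠ 1 → y * z ≠ 1 →
    gp x⁻¹ y + gp y⁻¹ z < 2 * (y.norm : ℤ)

end

end Pool.Agent.F2X
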