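import Pool.Agent.Lib.MP_305fdd_al.F2X.P.ap1
import Pool.Agent.Lib.MP_305fdd_al.F2X.P.ap2
import Pool.Agent.Lib.MP_305fdd_al.F2X.P.cen
import Pool.Agent.Lib.MP_305fdd_al.F2X.P.cor
import Pool.Agent.Lib.MP_305fdd_al.F2X.P.ell
import Pool.Agent.Lib.MP_305fdd_al.F2X.P.ext
import Pool.Agent.Lib.MP_305fdd_al.F2X.P.fo
import Pool.Agent.Lib.MP_305fdd_al.F2X.P.four
import Pool.Agent.Lib.MP_305fdd_al.F2X.P.g1
import Pool.Agent.Lib.MP_305fdd_al.F2X.P.g2
import Pool.Agent.Lib.MP_305fdd_al.F2X.P.g3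
import Pool.Agent.Lib.MP_305fdd_al.F2X.P.gen
import Pool.Agent.Lib.MP_305fdd_al.F2X.P.half
import Pool.Agent.Lib.MP_305fdd_al.F2X.P.inv
import Pool.Agent.Lib.MP_305fdd_al.F2X.P.main
import Pool.Agent.Lib.MP_305fdd_al.F2X.P.mv
import Pool.Agent.Lib.MP_305fdd_al.F2X.P.niel
import Pool.Agent.Lib.MP_305fdd_al.F2X.P.nm
import Pool.Agent.Lib.MP_305fdd_al.F2X.P.out
import Pool.Agent.Lib.MP_305fdd_al.F2X.P.pre
import Pool.Agent.Lib.MP_305fdd_al.F2X.P.refl
import Pool.Agent.Lib.MP_305fdd_al.F2X.P.same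
import Pool.Agent.Lib.MP_305fdd_al.F2X.P.sqn
import Pool.Agent.Lib.MP_305fdd_al.F2X.P.std
import Pool.Agent.Lib.MP_305fdd_al.F2X.P.sur
import Pool.Agent.Lib.MP_305fdd_al.F2X.P.un
import Pool.Agent.Lib.MP_305fdd_al.F2X.P.word

/-!
# MP_305fdd_al: groups with a normal subgroup of finite index which is free of rank two

`main_all`: if the free group of rank two is profinitely rigid, so is every group with a normal
subgroup of finite index isomorphic to it. `cor_all`: in particular `C₂ * ℤ` and `C₂ * C₂ * C₂`.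
-/

set_option autoImplicit false

namespace Pool.Agent.F2X

open Matrix Pool.Agent.MP_305fdd_al Pool.Agent.Lib.MP_305fdd_al

theorem all_half : S_half := p_half p_four p_pre p_sqn

theorem all_gen : S_gen := p_gen (p_word p_four)

theorem all_niel : S_niel := p_niel p_mv all_half all_gen p_sqn

theorem all_out : S_out := p_out all_niel

theorem all_g1 : S_g1 := p_g1 p_fo p_tr p_refl

theorem all_g2 : S_g2 := p_g2 p_tr p_std

theorem all_g3 : S_g3 := p_g3 p_tr p_fo p_ell p_inv p_std p_un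

theorem all_gl : S_gl := p_gl all_g1 all_g2 all_g3

theorem main_all : S_main :=
  p_main p_same p_fgrf p_nm all_gl (p_ext all_out p_cen) p_sur

theorem cor_all : S_cor := p_cor main_all p_ap1 p_ap2

end Pool.Agent.F2X

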