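import Pool.Agent.Lib.MP_305fdd_al.F2X.Defs
import Pool.Agent.Lib.MP_305fdd_al.PSL.Modular

/-!
# MP_305fdd_al: finite extensions of the free group of rank two. Statements and proofs.

MAIN RESULT (`S_main`): if `F` (free of rank two) is profinitely rigid, so is every group with a
normal subgroup of finite index isomorphic to `F`; in particular `C₂ * ℤ` and `C₂ * C₂ * C₂`
(`S_cor`).

Every piece may use the statements named in its docstring as hypotheses. Definitions and basic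
lemmas: `F2X/Defs.lean`.
-/

set_option autoImplicit false

namespace Pool.Agent.F2X

open Matrix Pool.Agent.MP_305fdd_al Pool.Agent.Lib.MP_305fdd_al

noncomputable section

/-! ## Part 1: genus and normal subgroups of finite index -/

/-- [FX same] corresponding kernels have the same finite quotients.

Proof. `π' = Φ.toFun Q π` is onto (`NatBij.range_eq`). It is enough to show: if `ψ : π.ker → P` is onto, `P`
finite, then there is a surjection `π'.ker → P` (for the converse apply this to `Φ.symm`, `π'`,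
`Φ.invFun Q π' = π`). Let `K` be the image of `ψ.ker` in `Γ` (`Subgroup.map (subtype)`), of finite index in `Γ`
(finite index in `π.ker`, which has finite index), `K₀ = K.normalCore` (finite index, normal,
`Subgroup.normalCore_le`, `K₀ ≤ K ≤ π.ker`), `θ : Γ → Γ ⧸ K₀`, `f : Γ ⧸ K₀ → Q` with `f ∘ θ = π`. Put
`θ' = Φ.toFun _ θ`, onto, `f ∘ θ' = π'` (`nat`). `θ'` maps `π'.ker` onto `f.ker` (`θ'` is onto and `π' = f ∘ θ'`). Every
`x ∈ f.ker` is `θ ν` with `ν ∈ π.ker`; `x ↦ ψ ν` is well defined (`θ ν = θ ν'` gives `ν⁻¹ ν' ∈ K₀ ≤ K`), a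
homomorphism and onto `P` (e.g. `QuotientGroup.lift`, or `f.ker ≃ π.ker ⧸ ..`; or define the homomorphism
`f.ker → P` by choice). Compose. -/
def S_same : Prop := ∀ (Γ Λ : Type) [Group Γ] [Group Λ] (Φ : NatBij Γ Λ) (Q : Type) [Group Q]
    [Finite Q] (π : Γ →* Q), Function.Surjective π →
    SameFiniteQuotients (Φ.toFun Q π).ker π.ker

/-- [FX fgrf] subgroups of finite index.

Proof. Mathlib: finite index subgroups of finitely generated groups are finitely generated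
(`Subgroup.fg_of_index_ne_zero` or similar in `GroupTheory/Schreier`), subgroups of residually finite
groups are residually finite (`Group.ResiduallyFinite`, see `Lib/MP_305fdd_al/RF.lean`, `Genus.lean` for
lemmas of this kind). -/
def S_fgrf : Prop := ∀ (Λ : Type) [Group Λ] (M : Subgroup Λ), M.FiniteIndex → Group.FG Λ →
    Group.ResiduallyFinite Λ → Group.FG M ∧ Group.ResiduallyFinite M

/-- [FX nm] the actions on the abelianisations are conjugate modulo `n`.

Proof. Let `s_n : F → Multiplicative (Fin 2 → ZMod n)` be `vec` modulo `n`; it is onto (`vec_surj`). Let `K` be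
the image in `Γ` of the kernel of `s_n ∘ e` (a subgroup of `π.ker`); `K` is normal in `Γ`: for `x ∈ π.ker`,
`e (g x g⁻¹) = cj e g (e x)` (`cj_e`) has the class `(Th e g) vec (e x)` (`AM_vec`), which is `0` modulo `n` if
`vec (e x)` is. Finite index: `[π.ker : K] = n²`. Let `θ : Γ → G₀ = Γ ⧸ K`, `f : G₀ → Q` with `f ∘ θ = π`,
`θ' = Φ.toFun _ θ`, onto, `f ∘ θ' = π' := Φ.toFun Q π`. There is an isomorphism `j : f.ker → (ℤ/n)²` with
`j (θ ν) = s_n (e ν)` for `ν ∈ π.ker`; it satisfies `j (θ g * x * (θ g)⁻¹) = (red n (Th e g)) j x` for `x ∈ f.ker`.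
`θ'` maps `π'.ker` onto `f.ker`; so `w ↦ j (θ' (e'⁻¹ w))` is a surjection `F → (ℤ/n)²`; as the target is abelian of
exponent `n` it has the form `w ↦ Y (vec w mod n)` for a matrix `Y` over `ℤ/n` (values at `ga, gb`; `vec_hom`
style argument), and `Y` is invertible because it is surjective (a surjective endomorphism of a finite
set is bijective, or `Matrix.isUnit_iff..`). For `π g = π' l` choose `g'` with `θ g' = θ' l` (`θ` onto); then
`π g' = f (θ' l) = π' l = π g`, so `g' g⁻¹ ∈ π.ker` and `Th e g' = Th e g` (`Th_mem'`). For `w = e' ν`, `ν ∈ π'.ker`: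
`Y (red n (Th e' l)) vec w = j (θ' (l ν l⁻¹)) = j (θ g' θ' ν (θ g')⁻¹) = (red n (Th e g)) Y vec w`. `vec w` is arbitrary,
so `Y * red n (Th e' l) = red n (Th e g) * Y`; take `X = Y⁻¹`. -/
def S_nm : Prop := ∀ (Γ Λ : Type) [Group Γ] [Group Λ] (Φ : NatBij Γ Λ) (Q : Type) [Group Q]
    [Finite Q] (π : Γ →* Q), Function.Surjective π → ∀ (e : π.ker ≃* F)
    (e' : (Φ.toFun Q π).ker ≃* F) (n : ℕ), 0 < n → ∃ X : GL (Fin 2) (ZMod n),
    ∀ (g : Γ) (l : Λ), π g = Φ.toFun Q π l → X * red n (Th e g) = red n (Th e' l) * X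

/-- [FX ext] an extension of a finite group by `F` is determined by the action on `F` modulo inner
automorphisms. (Uses `S_out`, `S_cen`.)

Proof. Let `P = {(g, l) | π g = π' l ∧ cj e g = cj e' l}`. For every `g` there is exactly one `l` with
`(g, l) ∈ P`: choose `l₀` with `π' l₀ = π g`; `Th e g = Th e' l₀` and `S_out` give `w` with
`cj e g = cj e' l₀ * conj w` (apply `S_out` to `(cj e' l₀)⁻¹ * cj e g`); with `x = e'⁻¹ w ∈ π'.ker` and `cj_mem`,
`l = l₀ x` does it. Uniqueness: two solutions differ by `x ∈ π'.ker` with `conj (e' x) = 1`, so `e' x` is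
central, `x = 1` (`S_cen`). By symmetry for every `l` there is exactly one `g`. `P` is a subgroup of `Γ × Λ`,
so it is the graph of an isomorphism. -/
def S_ext : Prop := ∀ (Γ Λ Q : Type) [Group Γ] [Group Λ] [Group Q] (π : Γ →* Q) (π' : Λ →* Q),
    Function.Surjective π → Function.Surjective π' → ∀ (e : π.ker ≃* F) (e' : π'.ker ≃* F),
    (∀ (g : Γ) (l : Λ), π g = π' l → Th e g = Th e' l) → Nonempty (Λ ≃* Γ)

/-! ## Part 2: finite groups of integral `2 × 2` matrices: conjugate modulo all `n` implies conjugate -/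

/-- [FX tr] traces and determinants. `n = 2 (|tr| + |tr'| + 2)` etc.: an integer congruent to `0` modulo
all `n > 0` is `0`. `trace (X A X⁻¹) = trace A`. -/
def S_tr : Prop := ∀ (A B : GL (Fin 2) ℤ),
    (∀ n : ℕ, 0 < n → ∃ X : GL (Fin 2) (ZMod n), X * red n A = red n B * X) →
    A.val.trace = B.val.trace ∧ A.val.det = B.val.det

/-- [FX fo] elements of finite order.

Proof. Cayley-Hamilton: `A² = t A - d`, `t = trace`, `d = det = ±1` (a unit of `ℤ`). `d = 1`: `t_n = trace (A ^ n)`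
satisfies `t_0 = 2`, `t_1 = t`, `t_(n+2) = t t_(n+1) - t_n`. If `|t| ≥ 3` then `|t_n|` is strictly increasing, so
`t_k ≠ 2` for `k > 0`, `A ^ k ≠ 1`. If `t = 2`: `(A - 1)² = 0`, `A ^ k = 1 + k (A - 1)`, so `A = 1`. If `t = -2`: apply this
to `-A` (with the exponent `2 k`). `d = -1`: `A²` has determinant `1` and trace `t² + 2`, so `t² + 2 ≤ 2`, `t = 0`,
`A² = 1`. -/
def S_fo : Prop := ∀ (A : Matrix (Fin 2) (Fin 2) ℤ) (k : ℕ), 0 < k → A ^ k = 1 →
    (A.det = 1 → (|A.trace| ≤ 1 ∨ A = 1 ∨ A = -1)) ∧ (A.det = -1 → A.trace = 0 ∧ A * A = 1) ∧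
    (A.det = 1 ∨ A.det = -1)

/-- [FX ell] an elliptic element commutes with all elements of determinant one in a finite group.

Proof. `J = [[p, q], [r, s]]`, `D = J B - B J = [[x, y], [z, -x]]` (trace zero). `trace (J * D) = 0`, i.e.
`(p - s) x + q z + r y = 0`. `det D = 2 - trace (J B J⁻¹ B⁻¹)` (polynomial identity using `det J = det B = 1`), and
`J B J⁻¹ B⁻¹ = J B adj(J) adj(B)`, so by hypothesis `det D ≥ 0`, i.e. `x² + y z ≤ 0`. As `(p - s)² + 4 q r =
(p + s)² - 4 < 0`, `q r < 0`. `q r (x² + y z) = q r x² + (r y)(q z) = -((q z)² + (p - s) x (q z) - q r x²)`; the form in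
brackets is positive definite in `(q z, x)` (discriminant `(p - s)² + 4 q r < 0`). So `q r (x² + y z) ≤ 0`, and
also `≥ 0` because `q r < 0` and `x² + y z ≤ 0`. Hence it is `0`, `x = 0`, `q z = 0`, `z = 0`, `r y = 0`, `y = 0`: `D = 0`. -/
def S_ell : Prop := ∀ J B : Matrix (Fin 2) (Fin 2) ℤ, J.det = 1 → |J.trace| ≤ 1 → B.det = 1 →
    (J * B * J.adjugate * B.adjugate).trace ≤ 2 → J * B = B * J

/-- [FX inv] conjugates of `J`.

Proof. `B` commutes with `J` and has the same trace and determinant. `(B - J)(B - J⁻¹) = B² - (J + J⁻¹) B + 1 =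
B² - t B + 1 = 0` (`J⁻¹ = adj J = t - J`; Cayley-Hamilton for `B`). So `det (B - J) = 0` or `det (B - adj J) = 0`.
`B` commutes with the non-scalar matrix `J`: with `J = [[p, q], [r, s]]`, `q r ≠ 0` (see `S_ell`). Both `C = B - J`
and `C = B - adj J` commute with `J` and have trace... in the first case `trace C = 0`, so `C = [[x, y], [z, -x]]`
with `det C = -(x² + y z) = 0` and commuting with `J`: `q z = r y`, `(p - s) y = 2 q x`, `(p - s) z = 2 r x`. Multiply
`x² + y z = 0` by `4 q r`: `4 q r x² + (2 q z)(2 r y)`; with `q z = r y =: w`: `q r x² + w² = 0` and `(p - s) w = 2 q r x`; so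
`4 q r w² ... `: `((p - s)² + 4 q r) w² = 0`, hence `w = 0`, `x = 0`, `y = z = 0`. Same for the second case. -/
def S_inv : Prop := ∀ J B : Matrix (Fin 2) (Fin 2) ℤ, J.det = 1 → |J.trace| ≤ 1 → B.det = 1 →
    B.trace = J.trace → J * B = B * J → B = J ∨ B = J.adjugate

/-- [FX std] normal form of elliptic elements.

Proof. For `x ∈ ℤ²` let `f(x) = det (x, J x)` (columns); with `J = [[p, q], [r, s]]`,
`f(x) = r x₀² + (s - p) x₀ x₁ - q x₁²`, discriminant `(s - p)² + 4 q r = t² - 4 < 0`, so `f` is definite. Choose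
`x ≠ 0` with `m = |f(x)|` minimal. `x` is primitive (otherwise divide), complete it to a basis `x, y` of `ℤ²`;
`f(α x + β y) = ±(m α² + b α β + c β²)`, `m, c > 0`, `b² - 4 m c = t² - 4`; replacing `y` by `y + k x` we may assume
`|b| ≤ m`; `c ≥ m` (minimality). `4 - t² = 4 m c - b² ≥ 3 m²`, `4 - t² ≤ 4`, so `m = 1`: `det (x, J x) = ±1`. Then
`X⁻¹ = (x, J x)` (columns) is in `GL₂(ℤ)`, `J X⁻¹ = (J x, J² x) = (J x, t J x - x) = X⁻¹ [[0, -1], [1, t]]`. -/
def S_std : Prop := ∀ J : GL (Fin 2) ℤ, J.val.det = 1 → |J.val.trace| ≤ 1 →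
    ∃ X : GL (Fin 2) ℤ, X.val * J.val = !![0, -1; 1, J.val.trace] * X.val

/-- [FX refl] normal forms of reflections.

Proof. `s² = 1`, `s ≠ ±1`. There are primitive `e₊, e₋ ∈ ℤ²` with `s e₊ = e₊`, `s e₋ = -e₋` (nonzero vectors in the
images of `s + 1`, `s - 1`, divided by their content). `D = det (e₊, e₋) ≠ 0`. For every `w ∈ ℤ²`
`2 w = (w + s w) + (w - s w) ∈ ℤ e₊ + ℤ e₋` (`w + s w` is fixed by `s`, so a multiple of the primitive vector
`e₊`). So `D ∣ 4`, and if `D` is even then: index argument: the quotient `ℤ²/(ℤ e₊ + ℤ e₋)` is killed by `2` and,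
as `e₊` is primitive, cyclic (generated by the class of `y`, `e₊, y` a basis), so `|D| ∈ {1, 2}`. `|D| = 1`:
`X⁻¹ = (e₊, e₋)`, `s = X⁻¹ diag(1, -1) X`. `|D| = 2`: `e₊ + e₋ ≡ 0` mod `2` (the determinant is `0` mod `2` and both
are nonzero mod `2`, so they are equal mod `2`), `f = (e₊ + e₋)/2`, `s f = (e₊ - e₋)/2`, `det (f, s f) = ±1`,
`X⁻¹ = (f, s f)` gives `[[0, 1], [1, 0]]`. The first case is `s ≡ 1` mod `2`, the second not. -/
def S_refl : Prop := ∀ s : GL (Fin 2) ℤ, s * s = 1 → s ≠ 1 → s.val ≠ -1 →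
    ∃ X : GL (Fin 2) ℤ, (red 2 s = 1 ∧ X.val * s.val = !![1, 0; 0, -1] * X.val) ∨
      (red 2 s ≠ 1 ∧ X.val * s.val = !![0, 1; 1, 0] * X.val)

/-- Two homomorphisms to `GL₂(ℤ)` which are conjugate modulo `n` for all `n`. -/
def LC {Q : Type} [Group Q] (θ θ' : Q →* GL (Fin 2) ℤ) : Prop :=
  ∀ n : ℕ, 0 < n → ∃ X : GL (Fin 2) (ZMod n), ∀ q, X * red n (θ q) = red n (θ' q) * X

/-- [FX g1] no elliptic elements. (Uses `S_tr`, `S_fo`, `S_refl`.)

Proof. By `S_fo` every `θ q` is `1`, `-1` or a reflection (`(θ q)² = 1`, trace `0`, determinant `-1`); by `S_tr` `θ' q` is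
of the same kind (`trace 2` resp. `-2` and finite order give `±1`). If all `θ q = ±1`: `θ' q = θ q`, `X = 1`. Otherwise
let `s = θ q₀` be a reflection, `s' = θ' q₀`. `red 2 s = 1 ↔ red 2 s' = 1` (`n = 2`), so by `S_refl` `s` and `s'` are
conjugate to the same matrix, and replacing `θ'` by a conjugate we may assume `s' = s`. For every `q`: `θ q` is
`±1` or `± s`: `θ (q q₀)` is also of the kind above; if `θ q` is a reflection then `θ (q q₀)` has determinant `1`, so it is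
`±1`, `θ q = ± s`. Similarly `θ' q ∈ {±1, ± s}`, and `θ' q` is congruent to `X (± s) X⁻¹ = ± s` (the same sign; `X`
commutes with `s` modulo `n`, `n = 3`). So `θ' q = θ q`. -/
def S_g1 : Prop := ∀ (Q : Type) [Group Q] [Finite Q] (θ θ' : Q →* GL (Fin 2) ℤ), LC θ θ' →
    (∀ q, (θ q).val.det = 1 → 1 < |(θ q).val.trace|) →
    ∃ X : GL (Fin 2) ℤ, ∀ q, X * θ q = θ' q * X

/-- [FX g2] an elliptic element `J`, all other elements commute with it. (Uses `S_tr`, `S_std`.)

Proof. `J = θ q₀`, `J' = θ' q₀` have the same trace and determinant (`S_tr`), so by `S_std` they are conjugate in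
`GL₂(ℤ)`; replacing `θ` and `θ'` by conjugates we may assume `J = J' = [[0, -1], [1, t]]`. A matrix which commutes
with `J` (over any commutative ring) is `α + β J` (first column `(α, β)`; compute). So `θ q = α + β J`, and modulo
`n` the matrix `X_n` commutes with `J`, so it is `α' + β' J`, and commutes with `θ q`: `θ' q = θ q` modulo `n`, for
all `n`. So `θ' = θ`. -/
def S_g2 : Prop := ∀ (Q : Type) [Group Q] [Finite Q] (θ θ' : Q →* GL (Fin 2) ℤ), LC θ θ' →
    ∀ q₀, (θ q₀).val.det = 1 → |(θ q₀).val.trace| ≤ 1 → (∀ q, θ q * θ q₀ = θ q₀ * θ q) →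
    ∃ X : GL (Fin 2) ℤ, ∀ q, X * θ q = θ' q * X

/-- [FX un] units of `ℤ[J]` which are norm one quotients locally are squares.

Proof. `J = [[0, -1], [1, t]]`, `t ∈ {0, 1, -1}`. `u = α + β J` with `α² + t α β + β² = 1`: `t = 0`: `u ∈ {±1, ±J}`;
`t = ±1`: `u ∈ {±1, ±J, ±J⁻¹}`, `J⁻¹ = t - J` (`α, β ∈ {-1, 0, 1}`). In `M₂(ℤ/n)` let `X` be invertible, commuting with
`J`, `X = α' + β' J`, and `X = u * adj X` modulo `n`. `t = 0`, `n = 2`: `X ∈ {1, J}` modulo `2` (`det X = α'² + β'² = 1` in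
`ℤ/2`), `adj X = X` modulo `2`, so `u = 1` modulo `2`, `u = ±1 = 1², J²`. `t = ±1`, `n = 3`: `ε = J + t` has `ε² = 0`,
`adj ε = -ε` modulo `3`; `X = α + β ε`, `α ≠ 0`, `X * X = u * det X`, `u = 1 + c ε` modulo `3`; the units which satisfy
this are `1, J, J⁻¹` for `t = -1` and `1, -J, -J⁻¹` for `t = 1` (finite check), and they are squares of units:
`t = -1`: `J = (J⁻¹)²`, `J⁻¹ = J²`; `t = 1`: `-J = (J²)²`, `-J⁻¹ = J²`. (`v` is a power of `J` or `1`.) -/
def S_un : Prop := ∀ (t : ℤ), |t| ≤ 1 → ∀ (u : Matrix (Fin 2) (Fin 2) ℤ),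
    u * !![0, -1; 1, t] = !![0, -1; 1, t] * u → u.det = 1 →
    (∀ n : ℕ, 0 < n → ∃ X : GL (Fin 2) (ZMod n),
      X.val * (!![0, -1; 1, t] : Matrix (Fin 2) (Fin 2) ℤ).map (Int.castRingHom (ZMod n)) =
        (!![0, -1; 1, t] : Matrix (Fin 2) (Fin 2) ℤ).map (Int.castRingHom (ZMod n)) * X.val ∧
      X.val = u.map (Int.castRingHom (ZMod n)) * X.val.adjugate) →
    ∃ v : GL (Fin 2) ℤ, v.val * !![0, -1; 1, t] = !![0, -1; 1, t] * v.val ∧ v.val.det = 1 ∧
      u = v.val * v.val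

/-- [FX g3] an elliptic element `J` and an element which does not commute with it. (Uses `S_tr`,
`S_fo`, `S_ell`, `S_inv`, `S_std`, `S_un`.)

Proof. For every `q` the matrix `g = θ q` satisfies `g J g⁻¹ ∈ {J, J⁻¹}`: `B = g J g⁻¹` has determinant `1` and
the trace of `J`; the commutator of `J` and `B` lies in the finite group `θ(Q)`, so its trace is `≤ 2` (`S_fo`),
`S_ell` and `S_inv` (`adj J = J⁻¹`). Same for `θ'`. As in `S_g2` we may assume that `θ q₀ = θ' q₀ = J = [[0, -1], [1, t]]`.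
Let `C = θ q₁`, `C J C⁻¹ = J⁻¹`. `C' = θ' q₁` satisfies `C' J C'⁻¹ = X_n J⁻¹ X_n⁻¹ = J⁻¹` modulo all `n`, so exactly.
A matrix over a commutative ring with `C J = J⁻¹ C` satisfies `C Z = (adj Z) C` for all `Z = α + β J`
(`adj (α + β J) = α + β J⁻¹`). `det C = -1`: if `det C = 1` then `S_ell` for `J` and `C` (finite group) gives
`C J = J C`, contradiction to `J⁻¹ ≠ J`. So `det C = det C' = -1` (`S_tr`), `u = C' C⁻¹` commutes with `J`,
`det u = 1`. Modulo `n`: `X C = C' X = u C X = u (adj X) C`, so `X = u adj X`. `S_un` gives `v` with `u = v²`,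
commuting with `J`, `v⁻¹ = adj v`: `v C v⁻¹ = v (adj v⁻¹) C = v² C = u C = C'`. So after conjugating `θ` by `v` we may assume
`C = C'` (and still `J = J'`). Then `X_n` commutes with `J` and `C` modulo `n`, so `X_n = adj X_n` (`u = 1`). For
every `q`: `θ q` commutes with `J` or inverts it. If it commutes: `θ' q = θ q` modulo `n` as in `S_g2`. If it
inverts `J`: `θ q = w C` with `w` commuting with `J`; `X_n w C X_n⁻¹ = w X_n C X_n⁻¹ = w C` modulo `n`. So
`θ' q = θ q` for all `q`. -/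
def S_g3 : Prop := ∀ (Q : Type) [Group Q] [Finite Q] (θ θ' : Q →* GL (Fin 2) ℤ), LC θ θ' →
    ∀ q₀, (θ q₀).val.det = 1 → |(θ q₀).val.trace| ≤ 1 → ∀ q₁, θ q₁ * θ q₀ ≠ θ q₀ * θ q₁ →
    ∃ X : GL (Fin 2) ℤ, ∀ q, X * θ q = θ' q * X

/-- [FX gl] THE RESULT OF PART 2. (Uses `S_g1`, `S_g2`, `S_g3`; case distinction.) -/
def S_gl : Prop := ∀ (Q : Type) [Group Q] [Finite Q] (θ θ' : Q →* GL (Fin 2) ℤ), LC θ θ' →
    ∃ X : GL (Fin 2) ℤ, ∀ q, X * θ q = θ' q * X

/-! ## Part 3: `Out(F) = GL₂(ℤ)` (Nielsen) -/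

/-- [FX four] the length function is `0`-hyperbolic; parity.

Proof. `gp x y` is twice the length of the longest common prefix of the reduced words of `x` and `y`:
if `x.toWord = P ++ X`, `y.toWord = P ++ Y` and `X, Y` do not start with the same letter then `invRev X ++ Y` is
reduced and `x⁻¹ y = mk (invRev X ++ Y)`. The longest common prefixes of `x, y` and of `y, z` are both prefixes of
`y`, so one is a prefix of the other, and the shorter one is a common prefix of `x` and `z`. -/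
def S_four : Prop := (∀ x y z : F, min (gp x y) (gp y z) ≤ gp x z) ∧
    (∀ x y : F, gp x y = gp y x ∧ 0 ≤ gp x y ∧ gp x y ≤ 2 * x.norm ∧ ∃ c : ℤ, gp x y = 2 * c)

/-- [FX pre] prefixes.

Proof. `x.toWord = L₁ ++ L₂`, `L₁ = take k`, `p = mk L₁`; subwords of reduced words are reduced. -/
def S_pre : Prop := ∀ (x : F) (k : ℕ), k ≤ x.norm → ∃ p : F, p.norm = k ∧
    (p⁻¹ * x).norm + k = x.norm

/-- [FX sqn] squares are longer.

Proof. `FreeGroup.reduceCyclically`, `conjugator` (Mathlib `FreeGroup/CyclicallyReduced`):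
`x = c d c⁻¹` with `d` cyclically reduced, `d ≠ 1`, `|x| = 2 |c| + |d|`, `|x²| = 2 |c| + 2 |d|`
(`reduce_flatten_replicate_succ`). -/
def S_sqn : Prop := ∀ x : F, x ≠ 1 → x.norm < (x * x).norm

/-- [FX word] products of letters of a reduced pair are long. (Uses `S_four`.)

Proof. For `x, y ∈ Lt u v`, `x y ≠ 1`, `c(x, y) = gp x⁻¹ y = |x| + |y| - |x y|` is even, `0 ≤ c ≤ |x|, |y|` (`two`).
Let `L = [x_1, .., x_n]` be a list of letters with `x_i x_(i+1) ≠ 1`, `w_i = x_1 ⋯ x_i`, `c_i = c(x_i, x_(i+1))`. Claim: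
`|w_(i+1)| = |w_i| + |x_(i+1)| - c_i`. For `i = 1` this is the definition. In general
`gp w_i⁻¹ x_i⁻¹ = |w_i| + |x_i| - |w_(i-1)| = 2 |x_i| - c_(i-1)` (induction), which is `> c_i = gp x_i⁻¹ x_(i+1)` by
`three`; by `S_four` (`0`-hyperbolicity: the two smallest of the three numbers are equal)
`gp w_i⁻¹ x_(i+1) = c_i`, which is the claim. So `|w_n| = ∑ |x_i| - ∑ c_i`. Write this as
`(|x_1| - c_1/2) + ∑ 1 < i < n, (|x_i| - (c_(i-1) + c_i)/2) + (|x_n| - c_(n-1)/2)`; every bracket is an integer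
and `> 0` (the first and the last are `≥ |x|/2 > 0`, the middle ones by `three`). So `|w_n| ≥ n`. -/
def S_word : Prop := ∀ u v : F, NRed u v → ∀ L : List F, (∀ x ∈ L, x ∈ Lt u v) →
    L.IsChain (fun x y => x * y ≠ 1) → L.length ≤ L.prod.norm

/-- [FX gen] a reduced generating pair is a signed permutation of `(ga, gb)`. (Uses `S_word`.)

Proof. `Lt u v` is closed under inverses, so every element of `F = closure {u, v}` is the product of a list
of elements of `Lt u v` (`Subgroup.exists_list_of_mem_closure`); take a list of minimal length; then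
consecutive products are `≠ 1` (otherwise remove the two letters). For `ga`, `gb`, of norm `1`, the list has
length `1` (`S_word`; the length `0` gives `1`). So `ga, gb ∈ Lt u v`. The elements `ga, gb` are different and not
inverse to each other (`vec`), so `{ga, gb}` consists of one of `u^(±1)` and one of `v^(±1)`. -/
def S_gen : Prop := ∀ u v : F, NRed u v → Subgroup.closure ({u, v} : Set F) = ⊤ →
    ((u = ga ∨ u = ga⁻¹) ∧ (v = gb ∨ v = gb⁻¹)) ∨ ((u = gb ∨ u = gb⁻¹) ∧ (v = ga ∨ v = ga⁻¹))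

/-- the group generated by the elementary automorphisms -/
def El : Subgroup (MulAut F) := Subgroup.closure {aS, aT, aX}

/-- [FX mv] elementary moves and inner automorphisms.

Proof. `aX` exchanges; `aS * aX : a ↦ a⁻¹, b ↦ b`; `aX * aS : a ↦ a, b ↦ b⁻¹`; `aT : a ↦ a, b ↦ a b`; conjugating these
(and inverses) by one another gives the other moves: `b ↦ b a` is obtained from the inverse of
`(aX aS) * aT * (aX aS) : b ↦ b a⁻¹`, etc. (`aut_ext`, `simp`). `(β * ε) ga = β (ε ga)`. Inner automorphisms: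
`conj ga = (b ↦ b a⁻¹) ∘ (b ↦ a b)`, `conj gb` similarly (conjugate by `aX`), and these generate the image of
`MulAut.conj` because `ga, gb` generate `F` (`Subgroup.closure_induction` for `FreeGroup.closure_range_of`). -/
def S_mv : Prop :=
  (∀ β : MulAut F, ∃ β₁ β₂ β₃ β₄ β₅ β₆ β₇ : MulAut F,
    (β⁻¹ * β₁ ∈ El ∧ β₁ ga = β gb ∧ β₁ gb = β ga) ∧ (β⁻¹ * β₂ ∈ El ∧ β₂ ga = (β ga)⁻¹ ∧ β₂ gb = β gb) ∧
    (β⁻¹ * β₃ ∈ El ∧ β₃ ga = β ga ∧ β₃ gb = (β gb)⁻¹) ∧
    (β⁻¹ * β₄ ∈ El ∧ β₄ ga = β ga * β gb ∧ β₄ gb = β gb) ∧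
    (β⁻¹ * β₅ ∈ El ∧ β₅ ga = β gb * β ga ∧ β₅ gb = β gb) ∧
    (β⁻¹ * β₆ ∈ El ∧ β₆ ga = β ga ∧ β₆ gb = β ga * β gb) ∧
    (β⁻¹ * β₇ ∈ El ∧ β₇ ga = β ga ∧ β₇ gb = β gb * β ga)) ∧
  ∀ g : F, MulAut.conj g ∈ El

/-- [FX half] if the third condition of Nielsen fails then a conjugation makes the pair shorter. (Uses
`S_four`, `S_pre`, `S_sqn`.)

Proof. Let `x, y, z ∈ Lt u v` with `x y ≠ 1`, `y z ≠ 1`, `gp x⁻¹ y + gp y⁻¹ z ≥ 2 |y|`. By `two` both are `≤ |y|`
(`gp x⁻¹ y = |x| + |y| - |x y| ≤ |y|`), so both are equal to `|y|`, `|y| = 2 k` is even (`S_four`), `k ≥ 1`; also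
`gp x⁻¹ y ≤ |x|`, so `|y| ≤ |x|`, `|y| ≤ |z|`. (i) `x ≠ y`: otherwise `|y²| = 2 |y| - gp y⁻¹ y = |y|`, contradiction to
`S_sqn`. Same for `z ≠ y`. So if `y = v^(±1)` then `x, z ∈ {u, u⁻¹}` (`x ≠ y⁻¹` as `x y ≠ 1`), and symmetrically.
(ii) `z ≠ x⁻¹`: otherwise `gp x⁻¹ y = |y|` and `gp y⁻¹ x⁻¹ = |y|`, so `gp y⁻¹ y ≥ |y|` by `S_four`, `|y²| ≤ |y|`,
contradiction. So `z = x`. (iii) Let `p` be the prefix of `y` of length `k` and `q = y⁻¹ p`, so `y = p q⁻¹`,
`|q| = k` (`S_pre`). `gp p y = 2 k` and `gp y x⁻¹ = 2 k`, so `gp p x⁻¹ ≥ 2 k`: `|p⁻¹ x⁻¹| ≤ |x| - k`; similarly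
`gp q y⁻¹ = 2 k` (`y⁻¹ = q p⁻¹`), `gp y⁻¹ x = 2 k`, so `|q⁻¹ x| ≤ |x| - k`. Then `q⁻¹ x y q = q⁻¹ x p`. Claim:
`|q⁻¹ x p| ≤ |x| - 2 k`: `x` has length `≥ 2 k`, starts with `q` and ends with `p⁻¹`: with `x' = q⁻¹ x`, `|x'| = |x| - k`,
`gp x'⁻¹ p`: `gp x⁻¹ x'⁻¹ = |x| + |x'| - |x x'⁻¹| = |x| + |x| - k - k ≥ 2 k` (`x x'⁻¹ = q`), and `gp p x⁻¹ ≥ 2 k`, so
`gp p x'⁻¹ ≥ 2 k`, `|p⁻¹ x'⁻¹| ≤ |x'| - k = |x| - 2 k`. And `|q⁻¹ y q| = |q⁻¹ p| ≤ 2 k`. So the pair
`(q⁻¹ (x y) q, q⁻¹ y q)` has total length `≤ |x| < |x| + |y|`. `{x, y}` is `{u^(±1), v^(±1)}` in some order. -/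
def S_half : Prop := ∀ u v : F, u ≠ 1 → v ≠ 1 →
    (∀ x ∈ Lt u v, ∀ y ∈ Lt u v, x * y ≠ 1 → x.norm ≤ (x * y).norm ∧ y.norm ≤ (x * y).norm) →
    NRed u v ∨ ∃ x y q : F, (((x = u ∨ x = u⁻¹) ∧ (y = v ∨ y = v⁻¹)) ∨
      ((x = v ∨ x = v⁻¹) ∧ (y = u ∨ y = u⁻¹))) ∧
      (q⁻¹ * (x * y) * q).norm + (q⁻¹ * y * q).norm < u.norm + v.norm

/-- [FX niel] Nielsen's theorem for rank two. (Uses `S_mv`, `S_half`, `S_gen`, `S_sqn`.)

Proof. Let `α` be an automorphism; choose `β` with `α⁻¹ β ∈ El` such that `|β ga| + |β gb|` is minimal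
(well-founded). `u = β ga`, `v = β gb` generate `F` and are `≠ 1`. `two`: let `x, y ∈ Lt u v`, `x y ≠ 1`. If `x = y`
use `S_sqn`. Otherwise `x` is `u^(±1)` and `y` is `v^(±1)` or conversely, and by `S_mv` the pairs obtained from `(x, y)` by
replacing `x` by `x y` or `y` by `x y` are (up to order and inverses) of the form `(β' ga, β' gb)` with
`β⁻¹ β' ∈ El`; minimality gives `|x y| ≥ |x|` and `|x y| ≥ |y|`. By `S_half` either `NRed u v`, or there is a shorter pair
`(q⁻¹ x y q, q⁻¹ y q)`; this pair is `(β' ga, β' gb)` up to order and inverses with `β' = conj q⁻¹ * β''`,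
`β⁻¹ β'' ∈ El`; `β⁻¹ β' = (β⁻¹ conj q⁻¹ β) (β⁻¹ β'')` and `β⁻¹ * conj g * β = conj (β⁻¹ g)` is in `El`: contradiction. So
`NRed u v`, and by `S_gen` `(u, v)` is a signed permutation of `(ga, gb)`; then `β` is one of `1, aX, ..` times
inversions, in `El` (e.g. `S_mv` applied to `β` and `aut_ext`: some `β'` with `β⁻¹ β' ∈ El` has `β' = 1`). So `α ∈ El`. -/
def S_niel : Prop := El = ⊤

/-- [FX out] automorphisms which act trivially on the abelianisation are inner. (Uses `S_niel`,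
`PSL2Z.isC2C3_psl` and its proof.)

Proof. Let `K = {α | ∃ g, α = conj g ∨ α = conj g * aI}`. `aS aI aS⁻¹ = aI`, `aT aI aT⁻¹ = conj ga * aI`, `aX aI aX⁻¹ = aI`
(`aut_ext`), `α conj g α⁻¹ = conj (α g)`; so `K` is a subgroup, normalised by `aS, aT, aX`, hence normal in
`MulAut F` (`S_niel`). `aS² = aI ∈ K` and `(aT aS)³ = conj (ga gb) * aI ∈ K`. By the universal property
(`PSL2Z.isC2C3_psl` is proved with `x = pr S`, `y = pr Y`, `Y = T S`; use the same construction
`PSL2Z.PslZ.lf`, or `IsC2C3.lift` for these generators) there is `f : PSL(2, ℤ) → MulAut F ⧸ K` with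
`f (pr S) = [aS]`, `f (pr Y) = [aT aS]`, so `f (pr T) = [aT]`. (1) For every `M ∈ SL(2, ℤ)` there is
`β ∈ closure {aS, aT}` with `(AM β).val = M` and `[β] = f (pr M)` (`SL2Z_generators`, induction). (2) The set
`{α | ∃ M, [α] = f (pr M) ∨ [α] = [aX] f (pr M)}` is a subgroup containing `aS, aT, aX`, so it is everything:
`aX aS aX⁻¹ = aS⁻¹`, `aX aT aX⁻¹ = conj gb * (aS aT⁻¹ aS⁻¹)` (both are `a ↦ b a, b ↦ b`), `aX² = 1`. (3) Let `AM α = 1`.
If `[α] = f (pr M) = [β]` with `β` as in (1), then `α = β κ` with `κ ∈ K`, `1 = AM α = M (AM κ) = ± M`, so `M = ±1`,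
`pr M = 1`, `α ∈ K`, and as `AM aI = -1 ≠ 1`, `α = conj g`. If `[α] = [aX] f (pr M)`, then
`1 = ± AM(aX) M`, impossible because the determinants are `1` and `-1`. -/
def S_out : Prop := ∀ α : MulAut F, AM α = 1 → ∃ g, α = MulAut.conj g

/-- [FX sur] every matrix is realised.

Proof. Let `X ∈ GL₂(ℤ)`, `det X = ±1`. `aX` has determinant `-1`; so we may assume `det X = 1`, `X ∈ SL(2, ℤ)`, which is
generated by `S, T` (`Matrix.SpecialLinearGroup.SL2Z_generators`) `= AM aS, AM aT` (`AM_aS`, `AM_aT`). -/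
def S_sur : Prop := Function.Surjective AM

/-- [FX cen] the centre of `F` is trivial.

Proof. Let `g` commute with `ga` and `gb`. If `g ≠ 1` let the reduced word of `g` begin with a letter `c^(±1)` and
let `d` be the other generator. `g` and `d` commute; `d^(-1) g` and `d g` are reduced as written... :
choose the sign `ε` such that the last letter of `g` is not `d^(-ε)`; then `g d^ε` has length `|g| + 1` and its
reduced word begins with `c^(±1)`, but `d^ε g` has length `|g| + 1` and begins with `d^ε`. Contradiction.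
(Or with the matrices of a faithful representation, or by `Subgroup.centralizer` results.) -/
def S_cen : Prop := ∀ g : F, (∀ w, g * w = w * g) → g = 1

/-! ## Part 4: main results -/

/-- [FX main] MAIN RESULT. (Uses `S_same`, `S_fgrf`, `S_nm`, `S_gl`, `S_ext`, `S_sur`.)

Proof. Let `Λ` be in the genus of `Γ`. `Γ` is finitely generated (an extension of a finite group by `N ≃ F`,
e.g. `Group.FG` of a group with a finitely generated normal subgroup of finite index). `exists_natBij` gives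
`Φ : NatBij Γ Λ`. `Q = Γ ⧸ N`, `π = mk' N`, `π.ker = N ≃ F` by `e`. `π' = Φ.toFun Q π`, onto, `M = π'.ker`. `S_same`,
`S_fgrf` and `e` give `InGenus F M`, so `e' : M ≃* F` by rigidity of `F`. `Th e` is trivial on `π.ker` (`Th_mem'`), so
`Th e = θ ∘ π` for a homomorphism `θ : Q → GL₂(ℤ)`, similarly `Th e' = θ' ∘ π'`. `S_nm` gives `LC θ θ'`, `S_gl` gives
`X` with `X θ = θ' X`; by `S_sur` `X = AM α`; replace `e` by `e₁ = e.trans α`: `cj e₁ g = α (cj e g) α⁻¹`,
`Th e₁ g = X (Th e g) X⁻¹ = Th e' l` for `π g = π' l`. `S_ext`. -/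
def S_main : Prop := ProfinitelyRigid F → ∀ (Γ : Type) [Group Γ] (N : Subgroup Γ), N.Normal →
    N.FiniteIndex → Nonempty (N ≃* F) → ProfinitelyRigid Γ

/-- [FX ap1] `C₂ * ℤ` contains a normal subgroup of index `2` isomorphic to `F`.

Proof. `Γ = C₂ * ℤ`, `c` the generator of `C₂`, `t` of `ℤ`. `G = F ⋊ C₂`, the generator of `C₂` acting by `aX`
(`aX * aX = 1`; `Multiplicative (ZMod 2) →* MulAut F`). `f : Γ → G`, `c ↦ inr`, `t ↦ inl ga`; `f` is an isomorphism:
inverse `SemidirectProduct.lift` of `F → Γ`, `ga ↦ t`, `gb ↦ c t c⁻¹`, and `C₂ → Γ`. The subgroup `inl.range` of `G`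
is normal (kernel of `rightHom`), of index `2`, isomorphic to `F`; transport it to `Γ` (`Subgroup.comap`). -/
def S_ap1 : Prop := ∃ N : Subgroup (Monoid.Coprod (Multiplicative (ZMod 2)) (Multiplicative ℤ)),
    N.Normal ∧ N.FiniteIndex ∧ Nonempty (N ≃* F)

/-- [FX ap2] `C₂ * C₂ * C₂` contains a normal subgroup of index `2` isomorphic to `F`.

Proof. `c₁, c₂, c₃` the generators. `G = F ⋊ C₂`, the generator `s` of `C₂` acting by `aI`. `c₁ ↦ s`, `c₂ ↦ ga s`,
`c₃ ↦ gb s` (`(ga s)² = ga (s ga s⁻¹) = ga ga⁻¹ = 1`). Inverse: `F → Γ`, `ga ↦ c₂ c₁`, `gb ↦ c₃ c₁`, `s ↦ c₁`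
(`c₁ (c₂ c₁) c₁ = c₁ c₂ = (c₂ c₁)⁻¹`). As in `S_ap1`. -/
def S_ap2 : Prop := ∃ N : Subgroup (Monoid.Coprod (Multiplicative (ZMod 2))
    (Monoid.Coprod (Multiplicative (ZMod 2)) (Multiplicative (ZMod 2)))),
    N.Normal ∧ N.FiniteIndex ∧ Nonempty (N ≃* F)

/-- [FX cor] the new lattices. (Uses `S_main`, `S_ap1`, `S_ap2`.) -/
def S_cor : Prop := ProfinitelyRigid F →
    ProfinitelyRigid (Monoid.Coprod (Multiplicative (ZMod 2)) (Multiplicative ℤ)) ∧
    ProfinitelyRigid (Monoid.Coprod (Multiplicative (ZMod 2))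
      (Monoid.Coprod (Multiplicative (ZMod 2)) (Multiplicative (ZMod 2))))

end

end Pool.Agent.F2X
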